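import Pool.Agent.Q258.ThreshParity
import Mathlib.Analysis.Real.Cardinality

/-!
# There are continuum many classes `C_t` of `(-1,1,t)`-threshold graphs
-/

namespace Pool.Agent.Results.MP_922b49_co.ContinuumManyClasses

/-- `G` is a `(θ 0, …, θ (k-1))`-threshold graph: there is a rank function `r` such that distinct
vertices `v, w` are adjacent exactly when the number of indices `i` with `θ i ≤ r v + r w` is
odd. -/
def IsThresholdGraph {k : ℕ} (θ : Fin k → ℝ) {V : Type*} (G : SimpleGraph V) : Prop :=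
  ∃ r : V → ℝ, ∀ v w : V, v ≠ w →
    (G.Adj v w ↔ Odd (Finset.univ.filter (fun i : Fin k => θ i ≤ r v + r w)).card)

/-- The class `C_t` of all finite `(-1,1,t)`-threshold graphs, as a set of graphs on the vertex sets
`Fin n`. -/
def C (t : ℝ) : Set (Σ n : ℕ, SimpleGraph (Fin n)) :=
  {G | IsThresholdGraph ![-1, 1, t] G.2}

/-- The set `{C_t : t ∈ (1, ∞)}` is uncountable; it has the cardinality of the continuum. -/
theorem result : ¬ (C '' Set.Ioi (1 : ℝ)).Countable ∧
    Cardinal.mk (C '' Set.Ioi (1 : ℝ)) = Cardinal.continuum := by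
  have key : ∀ t : ℝ, 1 < t → ∀ G : Σ n : ℕ, SimpleGraph (Fin n),
      G ∈ C t ↔ Pool.Agent.Q258.Thresh.InC t G.2 := by
    intro t ht G
    show IsThresholdGraph ![-1, 1, t] G.2 ↔ _
    unfold IsThresholdGraph Pool.Agent.Q258.Thresh.InC
    simp only [Pool.Agent.Q258.Thresh.odd_iff ht]
  have inj : Set.InjOn C (Set.Ioi (1 : ℝ)) := by
    intro t ht t' ht' h
    by_contra hne
    obtain ⟨n, G, h1, h2⟩ := Pool.Agent.Q258.Thresh.main (Set.mem_Ioi.1 ht) (Set.mem_Ioi.1 ht') hne
    apply h2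
    have h3 : (⟨n, G⟩ : Σ n : ℕ, SimpleGraph (Fin n)) ∈ C t := (key t ht ⟨n, G⟩).2 h1
    rw [h] at h3
    exact (key t' ht' ⟨n, G⟩).1 h3
  have hc : Cardinal.mk (C '' Set.Ioi (1 : ℝ)) = Cardinal.continuum := by
    have h1 := Cardinal.mk_image_eq_of_injOn_lift C (Set.Ioi (1 : ℝ)) inj
    simpa [Cardinal.mk_Ioi_real] using h1
  refine ⟨?_, hc⟩
  intro h
  have := Cardinal.le_aleph0_iff_set_countable.2 h
  rw [hc] at this
  exact absurd this (not_le.2 Cardinal.aleph0_lt_continuum)

end Pool.Agent.Results.MP_922b49_co.ContinuumManyClasses
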